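import Pool.Agent.Q26.TT.TAN

/-!
# Project TT: torsion in another direction on a line which is not special
-/

set_option autoImplicit false

namespace Pool.Agent.Q26.TT

open MvPolynomial Height AdmissibleAbsValues Pool.Agent.Q35.TT

theorem degreeOf_pderiv {R : Type} [CommRing R] {n : ℕ} {f : MvPolynomial (Fin n) R} {i : Fin n}
    {d : ℕ} (hf : f.degreeOf i ≤ d) (j : Fin n) : (pderiv j f).degreeOf i ≤ d := by
  classical
  rw [degreeOf_le_iff] at hf ⊢
  intro m hm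
  have h1 : f.coeff (m + Finsupp.single j 1) ≠ 0 := by
    intro h0
    apply mem_support_iff.1 hm
    rw [coeff_pderiv, h0, zero_mul]
  have h2 := hf _ (mem_support_iff.2 h1)
  rw [Finsupp.add_apply] at h2
  omega

/-- **TBN** -/
theorem tbn (h1 : S_GLN) (h2 : S_ORN) (h3 : S_PRN) (h4 : S_BHT) : S_TBN := by
  intro K _ _ n f hf z i j hij hND
  obtain ⟨C, hC1, hCf, hC⟩ := h1 K n f hf
  obtain ⟨A, hA0, hA⟩ := h2 K n f hf j (8 * totalWeight K)
  obtain ⟨D, hD0, hD⟩ := h3 K C hC1 hCf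
  obtain ⟨E, hE0, hE⟩ := h4 K _ _ hND
  obtain ⟨P, hP⟩ : ∃ P : ℝ, P = ∏ k ∈ Finset.univ.erase i, mulHeight₁ (z k) := ⟨_, rfl⟩
  have hP1 : 1 ≤ P := by
    rw [hP]
    exact one_le_prod _ _ fun j => one_le_mulHeight₁ (z j)
  have hfin := NumberField.finite_setOfPred_mulHeight₁_le (K := K) ((D * P ^ 4 / E) ^ 2 * (A * P))
  refine hfin.subset ?_
  rintro t ⟨N0, hN0, hT0⟩
  obtain ⟨z', hz'⟩ : ∃ z' : Fin n → K, z' = Function.update z i t := ⟨_, rfl⟩
  rw [← hz'] at hT0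
  obtain ⟨N, hN, hT, hNb⟩ := hA z' N0 hN0 hT0
  have hu0 : eval z' f ≠ 0 := eval_ne hf hT
  have hz'i : z' i = t := by
    rw [hz', Function.update_self]
  have hlc : ∀ g : MvPolynomial (Fin n) K, lc g (af z') i = lc g (af z) i := fun g => by
    rw [hz', lc_update]
  have e1 : bq (lc f (af z) i) ![1, t] = eval z' f := by
    rw [← hlc, ← hz'i]
    exact eval_bq f i (hf i) z'
  have e2 : bq (lc (pderiv j f) (af z) i) ![1, t] = bd (lc f (af z') j) (af z' j) 1 := by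
    rw [← hlc, ← hz'i, eval_bq (pderiv j f) i (degreeOf_pderiv (hf i) j) z']
    exact (eval_bd f j (hf j) z').symm
  obtain ⟨m, hm⟩ : ∃ m : ℝ, m = N := ⟨_, rfl⟩
  have hm1 : 1 ≤ m := by
    rw [hm]
    exact_mod_cast Nat.one_le_iff_ne_zero.2 hN
  have hprod : ∀ v : AbsoluteValue K ℝ, max 1 (v t) ^ 4 ≤ ∏ k, max 1 (v (z' k)) ^ 4 := by
    intro v
    have h5 := le_prod (fun k => max 1 (v (z' k)) ^ 4)
      (fun k => one_le_pow₀ (le_max_left _ _)) i
    simp only [hz'i] at h5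
    exact h5
  have hprod1 : ∀ v : AbsoluteValue K ℝ, 1 ≤ ∏ k, max 1 (v (z' k)) ^ 4 := fun v =>
    one_le_prod _ _ fun k => one_le_pow₀ (le_max_left _ _)
  -- the local inequalities
  have hloc : ∀ (v : AbsoluteValue K ℝ) (Cn : ℝ), 1 ≤ Cn →
      v (bd (lc f (af z') j) (af z' j) 1) ^ 2 ≤ Cn * v (eval z' f) * max 1 (v (z' j)) ^ 2 *
        ∏ k ∈ Finset.univ.erase j, max 1 (v (z' k)) ^ 4 → ∀ k : Fin 3,
      v ((![bq (lc (pderiv j f) (af z) i) ![1, t] ^ 2, bq (lc f (af z) i) ![1, t],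
        bq (lc f (af z) i) ![1, t] * t ^ 4] : Fin 3 → K) k) ≤
          Cn * v (eval z' f) * ∏ k, max 1 (v (z' k)) ^ 4 := by
    intro v Cn hCn h k
    have hCu : v (eval z' f) ≤ Cn * v (eval z' f) := le_mul_of_one_le_left (v.nonneg _) hCn
    fin_cases k
    · show v (bq (lc (pderiv j f) (af z) i) ![1, t] ^ 2) ≤ _
      rw [e2]
      have h5 := loc_aux v z' j _ 1 (Or.inl rfl) (le_refl Cn) (v.nonneg _) h
      rwa [one_pow, mul_one] at h5
    · show v (bq (lc f (af z) i) ![1, t]) ≤ _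
      rw [e1]
      exact hCu.trans (le_mul_of_one_le_right ((v.nonneg _).trans hCu) (hprod1 v))
    · show v (bq (lc f (af z) i) ![1, t] * t ^ 4) ≤ _
      rw [e1, map_mul, map_pow]
      refine mul_le_mul hCu ?_ (by positivity) ((v.nonneg _).trans hCu)
      exact (pow_le_pow_left₀ (v.nonneg _) (le_max_right _ _) 4).trans (hprod v)
  have hkey := hD (Fin 3) n (![bq (lc (pderiv j f) (af z) i) ![1, t] ^ 2,
      bq (lc f (af z) i) ![1, t], bq (lc f (af z) i) ![1, t] * t ^ 4] : Fin 3 → K) (eval z' f) z'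
    (fun _ => 4) (m ^ 4) (by
      intro h0
      apply hu0
      rw [← e1]
      exact congrFun h0 1) hu0 (one_le_pow₀ hm1) (by
      intro v hv k
      have h5 := (hC z' j N hN hT 1).1 v hv
      rw [← hm] at h5
      exact hloc v (C v * m ^ 4) (one_le_mul_of_one_le_of_one_le (hC1 v) (one_le_pow₀ hm1)) h5 k)
    (by
      intro v hv k
      have h5 := (hC z' j N hN hT 1).2 v hv
      exact hloc v (C v) (hC1 v) h5 k)
  obtain ⟨H, hH⟩ : ∃ H : ℝ, H = mulHeight₁ t := ⟨_, rfl⟩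
  have hH1 : 1 ≤ H := by
    rw [hH]
    exact one_le_mulHeight₁ t
  have hHP : ∏ k, mulHeight₁ (z' k) = H * P := by
    rw [← Finset.mul_prod_erase Finset.univ _ (Finset.mem_univ i), hz'i, ← hH, hP]
    congr 1
    refine Finset.prod_congr rfl fun k hk => ?_
    rw [hz', Function.update_of_ne (Finset.mem_erase.1 hk).1]
  have h5 : E * H ^ 5 ≤ D * (m ^ 4) ^ totalWeight K * (H * P) ^ 4 := by
    have h6 := (hE t (by rw [e1]; exact hu0)).trans hkey
    rw [Finset.prod_pow, hHP] at h6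
    rw [hH] at h6 ⊢
    exact h6
  obtain ⟨Q, hQ⟩ : ∃ Q : ℝ, Q = (m ^ 4) ^ totalWeight K := ⟨_, rfl⟩
  rw [← hQ] at h5
  have hQ0 : 0 ≤ Q := by
    rw [hQ]
    positivity
  have h6 : H ≤ D * P ^ 4 / E * Q := by
    rw [div_mul_eq_mul_div, le_div_iff₀ hE0]
    have h7 : (E * H) * H ^ 4 ≤ (D * P ^ 4 * Q) * H ^ 4 := by
      calc (E * H) * H ^ 4 = E * H ^ 5 := by ring
        _ ≤ D * Q * (H * P) ^ 4 := h5
        _ = _ := by ring
    have h8 := le_of_mul_le_mul_right h7 (by positivity)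
    linarith
  have h7 : Q ^ 2 ≤ A * (H * P) := by
    have h8 : Q ^ 2 = (N : ℝ) ^ (8 * totalWeight K) := by
      rw [hQ, hm, ← pow_mul, ← pow_mul]
      congr 1
      ring
    rw [h8, ← hHP]
    exact hNb
  have h8 : H ^ 2 ≤ (D * P ^ 4 / E) ^ 2 * (A * P) * H := by
    calc H ^ 2 ≤ (D * P ^ 4 / E * Q) ^ 2 := pow_le_pow_left₀ (zero_le_one.trans hH1) h6 2
      _ = (D * P ^ 4 / E) ^ 2 * Q ^ 2 := by ring
      _ ≤ (D * P ^ 4 / E) ^ 2 * (A * (H * P)) := mul_le_mul_of_nonneg_left h7 (sq_nonneg _)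
      _ = _ := by ring
  show mulHeight₁ t ≤ _
  rw [← hH]
  have h9 : H * H ≤ (D * P ^ 4 / E) ^ 2 * (A * P) * H := by
    rw [← sq]
    exact h8
  exact le_of_mul_le_mul_right h9 (by linarith)

end Pool.Agent.Q26.TT
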