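import Pool.Agent.Q26.TT.Ev

/-!
# Project TT: only finitely many rational points are torsion in all directions
-/

set_option autoImplicit false

namespace Pool.Agent.Q26.TT

open MvPolynomial Height AdmissibleAbsValues Pool.Agent.Q35.TT

theorem eval_ne {K : Type} [Field K] {n : ℕ} {f : MvPolynomial (Fin n) K}
    (hf : ∀ j, f.degreeOf j ≤ 4) {z : Fin n → K} {i : Fin n} {N : ℕ}
    (h : TorT (lc f (af z) i) (z i) N) : eval z f ≠ 0 := by
  rw [← eval_bq f i (hf i) z]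
  exact h.1

/-- one local inequality -/
theorem loc_aux {K : Type} [Field K] {n : ℕ} (v : AbsoluteValue K ℝ) (z : Fin n → K) (i : Fin n)
    (b y : K) (hy : y = 1 ∨ y = z i) {Cn Cm u : ℝ} (hCm : Cn ≤ Cm) (hu : 0 ≤ u)
    (h : v b ^ 2 ≤ Cn * u * max 1 (v (z i)) ^ 2 *
      ∏ j ∈ Finset.univ.erase i, max 1 (v (z j)) ^ 4) :
    v (b ^ 2 * y ^ 2) ≤ Cm * u * ∏ j, max 1 (v (z j)) ^ 4 := by
  have hy1 : v y ≤ max 1 (v (z i)) := by
    rcases hy with rfl | rfl
    · rw [map_one]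
      exact le_max_left _ _
    · exact le_max_right _ _
  have hy2 : v y ^ 2 ≤ max 1 (v (z i)) ^ 2 := pow_le_pow_left₀ (v.nonneg y) hy1 2
  have hP : 0 ≤ ∏ j ∈ Finset.univ.erase i, max 1 (v (z j)) ^ 4 :=
    Finset.prod_nonneg fun j _ => by positivity
  rw [map_mul, map_pow, map_pow, ← Finset.mul_prod_erase Finset.univ _ (Finset.mem_univ i)]
  calc v b ^ 2 * v y ^ 2
      ≤ (Cn * u * max 1 (v (z i)) ^ 2 * ∏ j ∈ Finset.univ.erase i, max 1 (v (z j)) ^ 4) *
          max 1 (v (z i)) ^ 2 :=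
        mul_le_mul h hy2 (by positivity) ((sq_nonneg _).trans h)
    _ = Cn * (u * (max 1 (v (z i)) ^ 4 * ∏ j ∈ Finset.univ.erase i, max 1 (v (z j)) ^ 4)) := by
        ring
    _ ≤ Cm * (u * (max 1 (v (z i)) ^ 4 * ∏ j ∈ Finset.univ.erase i, max 1 (v (z j)) ^ 4)) :=
        mul_le_mul_of_nonneg_right hCm (by positivity)
    _ = _ := by ring

theorem one_le_prod {ι : Type} (s : Finset ι) (g : ι → ℝ) (hg : ∀ i, 1 ≤ g i) :
    1 ≤ ∏ i ∈ s, g i := by
  classical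
  induction s using Finset.induction_on with
  | empty => simp
  | insert a s ha ih =>
    rw [Finset.prod_insert ha]
    exact one_le_mul_of_one_le_of_one_le (hg a) ih

theorem le_prod {ι : Type} [Fintype ι] (g : ι → ℝ) (hg : ∀ i, 1 ≤ g i) (i : ι) :
    g i ≤ ∏ j, g j := by
  classical
  rw [← Finset.mul_prod_erase Finset.univ _ (Finset.mem_univ i)]
  exact le_mul_of_one_le_right (zero_le_one.trans (hg i)) (one_le_prod _ g hg)

/-- **TAN** -/
theorem tan_ (h1 : S_GLN) (h2 : S_ORN) (h3 : S_PRN) (h4 : S_NSN) : S_TAN := by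
  intro K _ _ n f hf hs
  rcases Nat.eq_zero_or_pos n with rfl | hn
  · exact Set.toFinite _
  have hne : Nonempty (Fin n) := ⟨⟨0, hn⟩⟩
  obtain ⟨C, hC1, hCf, hC⟩ := h1 K n f hf
  choose A hA0 hA using fun i => h2 K n f hf i (4 * totalWeight K)
  obtain ⟨D, hD0, hD⟩ := h3 K C hC1 hCf
  obtain ⟨E, hE0, hE⟩ := h4 K n f hf hs
  obtain ⟨B, hB⟩ : ∃ B : ℝ, ∀ i, A i ≤ B :=
    ⟨∑ i, A i, fun i => Finset.single_le_sum (fun j _ => (hA0 j).le) (Finset.mem_univ i)⟩
  have hfin := NumberField.finite_setOfPred_mulHeight₁_le (K := K) (D / E * B)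
  refine (Set.Finite.pi' fun _ : Fin n => hfin).subset ?_
  intro z hz
  choose N0 hN0 hT0 using hz
  choose N hN hT hNb using fun i => hA i z (N0 i) (hN0 i) (hT0 i)
  obtain ⟨i0, hi0⟩ := Finite.exists_max N
  obtain ⟨m, hm⟩ : ∃ m : ℝ, m = N i0 := ⟨_, rfl⟩
  have hm1 : 1 ≤ m := by
    rw [hm]
    exact_mod_cast Nat.one_le_iff_ne_zero.2 (hN i0)
  have hNm : ∀ i, ((N i : ℕ) : ℝ) ^ 4 ≤ m ^ 4 := fun i => by
    rw [hm]
    exact pow_le_pow_left₀ (Nat.cast_nonneg _) (by exact_mod_cast hi0 i) 4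
  have hu0 : eval z f ≠ 0 := eval_ne hf (hT i0)
  have hx : ∀ (i : Fin n) (k : Fin 2), af z i k = 1 ∨ af z i k = z i := by
    intro i k
    fin_cases k
    · left; rfl
    · right; rfl
  have hkey := hD (Fin n × Fin 2 × Fin 2) n (ZN f z) (eval z f) z (fun _ => 4) (m ^ 4) (hE z).1 hu0
    (one_le_pow₀ hm1) (by
      rintro v hv ⟨i, a, b⟩
      have h5 := (hC z i (N i) (hN i) (hT i) a).1 v hv
      exact loc_aux v z i _ _ (hx i b) (mul_le_mul_of_nonneg_left (hNm i)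
        (zero_le_one.trans (hC1 v))) (v.nonneg _) h5) (by
      rintro v hv ⟨i, a, b⟩
      have h5 := (hC z i (N i) (hN i) (hT i) a).2 v hv
      exact loc_aux v z i _ _ (hx i b) le_rfl (v.nonneg _) h5)
  obtain ⟨H, hH⟩ : ∃ H : ℝ, H = ∏ j, mulHeight₁ (z j) := ⟨_, rfl⟩
  have hH1 : 1 ≤ H := by
    rw [hH]
    exact one_le_prod _ _ fun j => one_le_mulHeight₁ (z j)
  have h5 : E * H ^ 8 ≤ D * (m ^ 4) ^ totalWeight K * H ^ 4 := by
    have h6 := (hE z).2.trans hkey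
    rw [Finset.prod_pow] at h6
    rw [hH]
    exact h6
  have h6 : (m ^ 4) ^ totalWeight K ≤ B * H := by
    rw [← pow_mul, hm]
    refine (hNb i0).trans ?_
    rw [← hH]
    exact mul_le_mul_of_nonneg_right (hB i0) (zero_le_one.trans hH1)
  have hB0 : 0 ≤ B := (hA0 i0).le.trans (hB i0)
  have h8 : E * H ^ 8 ≤ (D * B) * H ^ 5 := by
    calc E * H ^ 8 ≤ D * (m ^ 4) ^ totalWeight K * H ^ 4 := h5
      _ ≤ D * (B * H) * H ^ 4 :=
          mul_le_mul_of_nonneg_right (mul_le_mul_of_nonneg_left h6 hD0.le) (by positivity)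
      _ = _ := by ring
  have h9 : H ≤ D / E * B := by
    have h10 : E * H ≤ D * B := by
      have h11 : E * H * H ^ 5 ≤ (D * B) * H ^ 5 := by
        refine le_trans ?_ h8
        have h12 : H ^ 6 ≤ H ^ 8 := pow_le_pow_right₀ hH1 (by norm_num)
        calc E * H * H ^ 5 = E * H ^ 6 := by ring
          _ ≤ E * H ^ 8 := mul_le_mul_of_nonneg_left h12 hE0.le
      exact le_of_mul_le_mul_right h11 (by positivity)
    rw [div_mul_eq_mul_div, le_div_iff₀ hE0]
    linarith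
  intro j
  refine le_trans ?_ h9
  rw [hH]
  exact le_prod (fun j => mulHeight₁ (z j)) (fun j => one_le_mulHeight₁ (z j)) j

end Pool.Agent.Q26.TT
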