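import Pool.Agent.Q35.TT.Stm3

/-!
# Project TT: values and derivatives of forms of multidegree (4,…,4)
-/

set_option autoImplicit false

namespace Pool.Agent.Q26.TT

open MvPolynomial Pool.Agent.Q35.TT

section
variable {R : Type} [CommRing R] {n : ℕ}

theorem mo_af (m : Fin n →₀ ℕ) (z : Fin n → R) (i : Fin n) :
    mo m (af z) i = ∏ j ∈ Finset.univ.erase i, z j ^ m j := by
  unfold mo
  refine Finset.prod_congr rfl fun j _ => ?_
  have h0 : af z j 0 = 1 := rfl
  have h1 : af z j 1 = z j := rfl
  rw [h0, h1, one_pow, one_mul]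

theorem sum_lc (f : MvPolynomial (Fin n) R) (i : Fin n) (hf : f.degreeOf i ≤ 4)
    (x : Fin n → Fin 2 → R) (w : ℕ → R) :
    ∑ k : Fin 5, w k * lc f x i k = ∑ m ∈ f.support, w (m i) * (f.coeff m * mo m x i) := by
  classical
  unfold lc
  have h1 : ∀ m ∈ f.support, m i < 5 := fun m hm => by
    have := (degreeOf_le_iff.1 hf) m hm
    omega
  calc ∑ k : Fin 5, w k * ∑ m ∈ f.support with m i = (k : ℕ), f.coeff m * mo m x i
      = ∑ k : Fin 5, ∑ m ∈ f.support, if m i = (k : ℕ) then w (m i) * (f.coeff m * mo m x i)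
          else 0 := by
        refine Finset.sum_congr rfl fun k _ => ?_
        rw [Finset.mul_sum, Finset.sum_filter]
        refine Finset.sum_congr rfl fun m _ => ?_
        split_ifs with h
        · rw [h]
        · rfl
    _ = ∑ m ∈ f.support, ∑ k : Fin 5, if m i = (k : ℕ) then w (m i) * (f.coeff m * mo m x i)
          else 0 := Finset.sum_comm
    _ = _ := by
        refine Finset.sum_congr rfl fun m hm => ?_
        rw [Finset.sum_eq_single (⟨m i, h1 m hm⟩ : Fin 5)]
        · rw [if_pos rfl]
        · intro k _ hk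
          rw [if_neg]
          intro h
          exact hk (Fin.ext h.symm)
        · intro h
          exact absurd (Finset.mem_univ _) h

/-- the value of the polynomial -/
theorem eval_bq (f : MvPolynomial (Fin n) R) (i : Fin n) (hf : f.degreeOf i ≤ 4) (z : Fin n → R) :
    bq (lc f (af z) i) ![1, z i] = eval z f := by
  have h1 := sum_lc f i hf (af z) fun k => z i ^ k
  rw [eval_eq']
  have h2 : ∀ m ∈ f.support, z i ^ m i * (f.coeff m * mo m (af z) i) =
      f.coeff m * ∏ j, z j ^ m j := fun m _ => by
    rw [mo_af, ← Finset.mul_prod_erase Finset.univ (fun j => z j ^ m j) (Finset.mem_univ i)]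
    ring
  rw [Finset.sum_congr rfl h2] at h1
  rw [← h1]
  simp only [Fin.sum_univ_five, bq, Matrix.cons_val_zero, Matrix.cons_val_one]
  norm_num
  ring

/-- the value of the derivative -/
theorem eval_bd (f : MvPolynomial (Fin n) R) (i : Fin n) (hf : f.degreeOf i ≤ 4) (z : Fin n → R) :
    bd (lc f (af z) i) ![1, z i] 1 = eval z (pderiv i f) := by
  have h1 := sum_lc f i hf (af z) fun k => (k : R) * z i ^ (k - 1)
  have h3 : eval z (pderiv i f) = ∑ m ∈ f.support, f.coeff m * (m i : R) *
      (z i ^ (m i - 1) * ∏ j ∈ Finset.univ.erase i, z j ^ m j) := by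
    conv_lhs => rw [f.as_sum]
    rw [map_sum, map_sum]
    refine Finset.sum_congr rfl fun m _ => ?_
    rw [pderiv_monomial, eval_monomial, Finsupp.prod_fintype _ _ fun j => pow_zero _]
    congr 1
    rw [← Finset.mul_prod_erase Finset.univ _ (Finset.mem_univ i)]
    congr 1
    · simp
    · refine Finset.prod_congr rfl fun j hj => ?_
      have h4 : j ≠ i := (Finset.mem_erase.1 hj).1
      simp [Finsupp.single_apply, h4.symm]
  have h2 : ∀ m ∈ f.support, (m i : R) * z i ^ (m i - 1) * (f.coeff m * mo m (af z) i) =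
      f.coeff m * (m i : R) * (z i ^ (m i - 1) * ∏ j ∈ Finset.univ.erase i, z j ^ m j) :=
    fun m _ => by
      rw [mo_af]
      ring
  rw [Finset.sum_congr rfl h2] at h1
  rw [h3, ← h1]
  simp only [Fin.sum_univ_five, bd, Matrix.cons_val_zero, Matrix.cons_val_one]
  norm_num
  ring

/-- the coefficients do not depend on the coordinate -/
theorem lc_update (f : MvPolynomial (Fin n) R) (i : Fin n) (z : Fin n → R) (t : R) :
    lc f (af (Function.update z i t)) i = lc f (af z) i := by
  funext k
  unfold lc
  refine Finset.sum_congr rfl fun m _ => ?_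
  rw [mo_af, mo_af]
  congr 1
  refine Finset.prod_congr rfl fun j hj => ?_
  rw [Function.update_of_ne (Finset.mem_erase.1 hj).1]

end

end Pool.Agent.Q26.TT
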